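import Pool.Agent.Lib.MP_a349b4_lc.TH.Core

/-! The tables of keys read directly from adjacency lists, and the three kinds of stored sets. -/

set_option autoImplicit false

namespace Pool.Agent.Lib.MP_a349b4_lc.TK

open Finset
open TH (go go_congr go_true go_false mk mem_mk0 mem_mk1 mem_mk2 mem_mk3 card_mk inL desc
  rch outS mem_inL mem_outS mem_desc length_desc pos_desc getD_cases getD_inL exists_idx sum_inL
  length_inL ch ch_mono ch_le)

theorem go_true' {A : Finset ℕ} {it : ℕ → ℕ → ℕ} (i0 j0 : ℕ) (p : ℕ → ℕ)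
    (h0 : ∀ i < i0, it i (p i) ∈ A) (h1 : ∀ i < i0, ∀ j ≤ p i, it i j ∈ A → it i j % 4 ≠ 2)
    (h2 : it i0 j0 ∈ A) (h3 : ∀ j ≤ j0, it i0 j ∈ A → it i0 j % 2 = 1) :
    ∀ f i j, ((i < i0 ∧ j ≤ p i) ∨ (i = i0 ∧ j ≤ j0)) → go A it f i j = true := by
  intro f
  induction f with
  | zero => intro i j _; rfl
  | succ f ih =>
    intro i j h
    rw [go]
    rcases h with ⟨h, hj⟩ | ⟨rfl, h⟩
    · split_ifs with k1 k2 k3
      · rfl
      · exact absurd k3 (h1 i h j hj k1)
      · exact ih _ _ (by omega)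
      · refine ih _ _ (Or.inl ⟨h, ?_⟩)
        rcases Nat.lt_or_ge j (p i) with k | k
        · exact k
        · obtain rfl : j = p i := by omega
          exact absurd (h0 i h) k1
    · by_cases k1 : it i j ∈ A
      · rw [if_pos k1, if_pos (h3 j h k1)]
      · rw [if_neg k1]
        refine ih _ _ (Or.inr ⟨rfl, ?_⟩)
        rcases Nat.lt_or_ge j j0 with k | k
        · exact k
        · obtain rfl : j = j0 := by omega
          exact absurd h2 k1

variable (n : ℕ) (R : ℕ → ℕ → Prop) [DecidableRel R] (T H G : ℕ)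

def row (v b : ℕ) : List ℕ :=
  (desc R b v).map (fun z => 4 * z) ++ (inL n R b).map fun z => 4 * z + 1

def blk0 (v : ℕ) : List ℕ :=
  (4 * v + 2) :: (4 * (n + 1)) ::
    (if H < (inL n R v).length then 4 * n + 2 else 4 * (n + 2) + 2) ::
    (if G < (inL n R v).length then 4 * (n + 1) + 2 else 4 * (n + 2) + 2) ::
    ((inL n R v).map (fun z => 4 * z + 3) ++ [4 * n + 2])

def blk (v : ℕ) : ℕ → List ℕ
  | 0 => blk0 n R H G v
  | i + 1 => if i < (inL n R v).length then row n R v ((inL n R v).getD i 0) else [4 * n + 2]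

def tab (v i j : ℕ) : ℕ := (blk n R H G v i).getD j (4 * n)

def plen (v : ℕ) : ℕ → ℕ
  | 0 => (inL n R v).length + 4
  | i + 1 => if i < (inL n R v).length then (row n R v ((inL n R v).getD i 0)).length else 0

def AH (u : ℕ) (S : Finset ℕ) : Finset ℕ :=
  mk (insert n (insert (n + 1) S)) (outS n R u) (insert n S) ∅

open Classical in
noncomputable def gr (u : ℕ) : ℕ → Finset ℕ
  | 0 => ∅
  | v + 1 =>
    if ¬ rch n R u v ∧ go (AH n R u (gr u v)) (tab n R H G v) (2 * T + 5) 0 0 = true then
      insert v (gr u v) else gr u v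

variable {n R T H G} {u v : ℕ} {S B N2 : Finset ℕ}

theorem mem_row {v b k : ℕ} (h : k ∈ row n R v b) :
    (∃ x < v, R b x ∧ k = 4 * x) ∨ ∃ a < n, R a b ∧ k = 4 * a + 1 := by
  simp only [row, List.mem_append, List.mem_map, mem_desc, mem_inL] at h
  rcases h with ⟨x, h, k⟩ | ⟨x, h, k⟩
  · exact Or.inl ⟨x, h.1, h.2, k.symm⟩
  · exact Or.inr ⟨x, h.1, h.2, k.symm⟩

theorem mem_blk0 {k : ℕ} (h : k ∈ blk0 n R H G v) : k = 4 * v + 2 ∨ k = 4 * (n + 1) ∨
    k = 4 * n + 2 ∨ k = 4 * (n + 1) + 2 ∨ k = 4 * (n + 2) + 2 ∨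
    ∃ b < n, R b v ∧ k = 4 * b + 3 := by
  simp only [blk0, List.mem_cons, List.mem_append, List.mem_map, mem_inL, List.not_mem_nil,
    or_false] at h
  rcases h with h | h | h | h | ⟨x, h, k⟩ | h
  · exact Or.inl h
  · exact Or.inr (Or.inl h)
  · split_ifs at h <;> omega
  · split_ifs at h <;> omega
  · exact Or.inr (Or.inr (Or.inr (Or.inr (Or.inr ⟨x, h.1, h.2, k.symm⟩))))
  · omega

theorem length_blk0 : (blk0 n R H G v).length = (inL n R v).length + 5 := by simp [blk0]

theorem tab_zero {j : ℕ} (hj : j ≤ (inL n R v).length + 4) :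
    tab n R H G v 0 j ∈ blk0 n R H G v := by
  have : j < (blk0 n R H G v).length := by rw [length_blk0]; omega
  rw [tab, blk, List.getD_eq_getElem _ _ this]
  exact List.getElem_mem this

theorem tab_last : tab n R H G v 0 ((inL n R v).length + 4) = 4 * n + 2 := by
  rw [tab, blk, blk0]
  simp only [List.getD_cons_succ]
  rw [List.getD_append_right _ _ _ _ (by simp)]
  simp

theorem tab_succ {i : ℕ} (h : i < (inL n R v).length) (j : ℕ) :
    tab n R H G v (i + 1) j = (row n R v ((inL n R v).getD i 0)).getD j (4 * n) := by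
  rw [tab, blk, if_pos h]

theorem tab_end {i : ℕ} (h : (inL n R v).length ≤ i) (j : ℕ) :
    tab n R H G v (i + 1) j = [4 * n + 2].getD j (4 * n) := by
  rw [tab, blk, if_neg (by omega)]

theorem tab_cases (v i j : ℕ) : tab n R H G v i j = 4 * n ∨ tab n R H G v i j = 4 * n + 2 ∨
    tab n R H G v i j ∈ blk0 n R H G v ∨ ∃ b < n, tab n R H G v i j ∈ row n R v b := by
  rcases i with _ | i
  · rcases getD_cases (blk0 n R H G v) j (4 * n) with h | h
    · exact Or.inl h
    · exact Or.inr (Or.inr (Or.inl h))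
  · rcases Nat.lt_or_ge i (inL n R v).length with h | h
    · rw [tab_succ h]
      rcases getD_cases (row n R v ((inL n R v).getD i 0)) j (4 * n) with k | k
      · exact Or.inl k
      · exact Or.inr (Or.inr (Or.inr ⟨_, (getD_inL h).1, k⟩))
    · rw [tab_end h]
      rcases getD_cases [4 * n + 2] j (4 * n) with k | k
      · exact Or.inl k
      · exact Or.inr (Or.inl (List.mem_singleton.1 k))

theorem mem_gr {z : ℕ} : ∀ {v}, z ∈ gr n R T H G u v → z < v ∧ ¬ rch n R u z := by
  intro v
  induction v with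
  | zero => simp [gr]
  | succ v ih =>
    rw [gr]
    split_ifs with h
    · intro k
      rcases mem_insert.1 k with rfl | k
      · exact ⟨by omega, h.1⟩
      · exact ⟨by have := (ih k).1; omega, (ih k).2⟩
    · exact fun k => ⟨by have := (ih k).1; omega, (ih k).2⟩

theorem gr_stable {z v v' : ℕ} (h : z < v) (h' : v ≤ v') :
    z ∈ gr n R T H G u v' ↔ z ∈ gr n R T H G u v := by
  induction h' with
  | refl => rfl
  | @step m hm ih =>
    have hm' : v ≤ m := hm
    rw [gr]
    split_ifs
    · rw [mem_insert, ih]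
      exact or_iff_right (by omega)
    · exact ih

theorem AH_skip : 4 * n ∈ AH n R u S := by rw [AH, mem_mk0]; simp

theorem AH_head : tab n R H G v 0 1 ∈ AH n R u S := by
  change 4 * (n + 1) ∈ _
  rw [AH, mem_mk0]
  simp

theorem AH_end {i : ℕ} (h : (inL n R v).length ≤ i) : tab n R H G v (i + 1) 0 ∈ AH n R u S := by
  rw [tab_end h]
  change 4 * n + 2 ∈ _
  rw [AH, mem_mk2]
  simp

theorem AH_row {i : ℕ} (h : i < (inL n R v).length) :
    tab n R H G v (i + 1) (plen n R v (i + 1)) ∈ AH n R u S := by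
  rw [tab_succ h, plen, if_pos h, List.getD_eq_default _ _ le_rfl]
  exact AH_skip

theorem heavy_true (hS : ∀ z ∈ S, z < n ∧ ¬ rch n R u z) (hv : v < n) (h : rch n R u v) (f : ℕ) :
    go (AH n R u S) (tab n R H G v) f 0 0 = true := by
  obtain ⟨a, ha, b, hb, h1, h2, h3⟩ := h
  obtain ⟨i0, hi, hib⟩ := exists_idx hb h3
  have hm : 4 * a + 1 ∈ row n R v b := by
    simp only [row, List.mem_append, List.mem_map, mem_inL]
    exact Or.inr ⟨a, ⟨ha, h2⟩, rfl⟩
  obtain ⟨j0, hj, hjb⟩ := List.getElem_of_mem hm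
  refine go_true' (i0 + 1) j0 (fun i => Nat.casesOn i 1 fun i => plen n R v (i + 1)) ?_ ?_ ?_ ?_
    f 0 0 (Or.inl ⟨by omega, Nat.zero_le _⟩)
  · rintro (_ | i) hi'
    · exact AH_head
    · exact AH_row (by omega)
  · rintro (_ | i) hi' j hj' k
    · rcases j with _ | _ | j
      · change 4 * v + 2 ∈ _ at k
        rw [AH, mem_mk2, mem_insert] at k
        rcases k with k | k
        · omega
        · exact absurd ⟨a, ha, b, hb, h1, h2, h3⟩ (hS _ k).2
      · change 4 * (n + 1) % 4 ≠ 2
        omega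
      · exact absurd (show j + 1 + 1 ≤ 1 from hj') (by omega)
    · rw [tab_succ (by omega)]
      rcases getD_cases (row n R v ((inL n R v).getD i 0)) j (4 * n) with k | k
      · omega
      · rcases mem_row k with ⟨x, -, -, h⟩ | ⟨x, -, -, h⟩ <;> omega
  · rw [tab_succ hi, hib, List.getD_eq_getElem _ _ hj, hjb, AH, mem_mk1, mem_outS]
    exact ⟨ha, h1⟩
  · intro j hj' k
    rw [tab_succ hi, hib, List.getD_eq_getElem _ _ (hj'.trans_lt hj)] at k ⊢
    rcases mem_row (List.getElem_mem (hj'.trans_lt hj)) with ⟨x, k1, k2, e⟩ | ⟨x, -, -, e⟩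
    · rw [e, AH, mem_mk0, mem_insert, mem_insert] at k
      rcases k with k | k | k
      · omega
      · omega
      · exact absurd ⟨a, ha, b, hb, h1, h2, k2⟩ (hS _ k).2
    · omega

theorem heavy_false (hS : ∀ z ∈ S, z < v) (hv : v < n) (h : ¬ rch n R u v) (p : ℕ → ℕ)
    (hp : ∀ b < n, R b v → (row n R v b).getD (p b) (4 * n) ∈ AH n R u S) (f : ℕ)
    (hf : (∑ b ∈ range n, if R b v then p b + 1 else 0) + 3 ≤ f) :
    go (AH n R u S) (tab n R H G v) f 0 0 = false := by
  obtain ⟨L, hL⟩ : ∃ L, L = (inL n R v).length := ⟨_, rfl⟩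
  refine go_false (L + 1) (fun i => Nat.casesOn i 1 fun i =>
    if i < L then p ((inL n R v).getD i 0) else 0) ?_ ?_ ?_ f 0 0 (by omega) (by omega) ?_
  · rintro (_ | i) hi
    · exact AH_head
    · by_cases k : i < L
      · simp only [k, if_true]
        rw [tab_succ (hL ▸ k)]
        exact hp _ (getD_inL (hL ▸ k)).1 (getD_inL (hL ▸ k)).2
      · simp only [k, if_false]
        exact AH_end (by omega)
  · rintro (_ | i) hi j hj k
    · rcases j with _ | _ | j
      · change 4 * v + 2 ∈ _ at k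
        rw [AH, mem_mk2, mem_insert] at k
        rcases k with k | k
        · omega
        · have := hS _ k; omega
      · change 4 * (n + 1) % 4 = 0
        omega
      · exact absurd (show j + 1 + 1 ≤ 1 from hj) (by omega)
    · have hi' : i < (inL n R v).length := by omega
      rw [tab_succ hi'] at k ⊢
      rcases getD_cases (row n R v ((inL n R v).getD i 0)) j (4 * n) with e | e
      · omega
      · rcases mem_row e with ⟨x, -, -, e⟩ | ⟨x, k1, k2, e⟩
        · omega
        · rw [e, AH, mem_mk1, mem_outS] at k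
          exact absurd ⟨x, k1, _, (getD_inL hi').1, k.2, k2, (getD_inL hi').2⟩ h
  · intro j hj _
    obtain rfl : j = 0 := by simpa using hj
    rw [tab_end (by omega)]
    change (4 * n + 2) % 4 = 2
    omega
  · rw [← range_eq_Ico, sum_range_succ', sum_range_succ]
    have : ∑ i ∈ range L, ((if i < L then p ((inL n R v).getD i 0) else 0) + 1) =
        ∑ b ∈ range n, if R b v then p b + 1 else 0 := by
      rw [← sum_inL (fun b => p b + 1), ← hL]
      exact sum_congr rfl fun i hi => by rw [if_pos (mem_range.1 hi)]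
    simp only [this, lt_irrefl, if_false]
    change _ + (0 + 1) + (1 + 1) ≤ _
    omega

theorem light_true (hN : ∀ z ∈ N2, z = n ∨ z = n + 1) (hv : v < n) {b : ℕ} (hb : b < n)
    (h : R b v) (hB : b ∈ B) (hH : (inL n R v).length ≤ H)
    (hG : n + 1 ∉ N2 ∨ (inL n R v).length ≤ G) (f : ℕ) :
    go (mk ∅ ∅ N2 B) (tab n R H G v) f 0 0 = true := by
  obtain ⟨i0, hi, hib⟩ := exists_idx hb h
  have e : ∀ i < (inL n R v).length, tab n R H G v 0 (i + 4) = 4 * (inL n R v).getD i 0 + 3 := by
    intro i hi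
    rw [tab, blk, blk0]
    simp only [List.getD_cons_succ]
    rw [List.getD_append _ _ _ _ (by simpa using hi), List.getD_eq_getElem _ _ (by simpa using hi),
      List.getElem_map, List.getD_eq_getElem _ _ hi]
  refine go_true 0 (i0 + 4) (by omega) ?_ ?_ f 0 0 (Or.inr ⟨rfl, Nat.zero_le _⟩)
  · rwa [e _ hi, hib, mem_mk3]
  · rintro (_ | _ | _ | _ | j) hj k
    · change 4 * v + 2 ∈ _ at k
      have := hN _ (mem_mk2.1 k)
      omega
    · change 4 * (n + 1) ∈ _ at k
      simp [mem_mk0] at k
    · change (if H < (inL n R v).length then 4 * n + 2 else 4 * (n + 2) + 2) ∈ _ at k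
      rw [if_neg (by omega)] at k
      have := hN _ (mem_mk2.1 k)
      omega
    · change (if G < (inL n R v).length then 4 * (n + 1) + 2 else 4 * (n + 2) + 2) ∈ _ at k
      split_ifs at k with c
      · exact absurd (mem_mk2.1 k) (hG.resolve_right (by omega))
      · have := hN _ (mem_mk2.1 k)
        omega
    · rw [show j + 1 + 1 + 1 + 1 = j + 4 from rfl, e _ (by omega)]
      omega

theorem light_term {j : ℕ} (hj : j ≤ (inL n R v).length + 4)
    (k : tab n R H G v 0 j ∈ mk ∅ ∅ N2 B) : tab n R H G v 0 j % 4 = 2 ∨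
      ∃ b ∈ B, R b v ∧ tab n R H G v 0 j = 4 * b + 3 := by
  rcases mem_blk0 (tab_zero (H := H) (G := G) hj) with e | e | e | e | e | ⟨b, -, h, e⟩
  · omega
  · rw [e] at k
    simp [mem_mk0] at k
  · omega
  · omega
  · omega
  · exact Or.inr ⟨b, mem_mk3.1 (e ▸ k), h, e⟩

theorem light_false (hn : n ∈ N2) (h : ∀ b ∈ B, ¬ R b v) {f : ℕ}
    (hf : H + 5 ≤ f ∨ (n + 1 ∈ N2 ∧ G + 5 ≤ f)) :
    go (mk ∅ ∅ N2 B) (tab n R H G v) f 0 0 = false := by
  have key : ∀ p ≤ (inL n R v).length + 4, tab n R H G v 0 p ∈ mk ∅ ∅ N2 B → p + 1 ≤ f →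
      go (mk ∅ ∅ N2 B) (tab n R H G v) f 0 0 = false := fun p h1 h2 h3 => by
    refine go_false 0 (fun _ => p) (fun i hi => ?_) (by omega) (fun j hj k => ?_) f 0 0 le_rfl
      (Nat.zero_le _) (by simpa using h3)
    · obtain rfl : i = 0 := by omega
      exact h2
    · exact (light_term (hj.trans h1) k).resolve_right fun ⟨b, k1, k2, _⟩ => h b k1 k2
  by_cases c : (inL n R v).length + 5 ≤ f
  · exact key _ le_rfl (by rwa [tab_last, mem_mk2]) c
  · rcases hf with hf | ⟨h1, hf⟩
    · refine key 2 (by omega) ?_ (by omega)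
      change (if H < (inL n R v).length then 4 * n + 2 else 4 * (n + 2) + 2) ∈ _
      rwa [if_pos (by omega), mem_mk2]
    · refine key 3 (by omega) ?_ (by omega)
      change (if G < (inL n R v).length then 4 * (n + 1) + 2 else 4 * (n + 2) + 2) ∈ _
      rwa [if_pos (by omega), mem_mk2]

theorem ch_step (hS : ∀ z ∈ S, z < v) (hv : v < n) {b : ℕ} (h : R b v) :
    ∃ p, (row n R v b).getD p (4 * n) ∈ AH n R u S ∧
      ch n R S b + (p + 1) ≤ ch n R (insert v S) b := by
  obtain ⟨p, h1, h2⟩ := TH.ch_step (u := u) hS hv h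
  rcases p with _ | _ | p
  · change 4 * b + 3 ∈ _ at h1
    simp [TH.AH, mem_mk3] at h1
  · change 4 * (n + 1) ∈ _ at h1
    rw [TH.AH, mem_mk0, mem_insert] at h1
    rcases h1 with k | k
    · omega
    · have := hS _ k; omega
  · refine ⟨p, ?_, by omega⟩
    change (row n R v b).getD p (4 * n) ∈ _ at h1
    rw [TH.AH, TH.mem_mk] at h1
    rw [AH, TH.mem_mk]
    refine h1.imp_left fun ⟨z, k1, k2⟩ => ⟨z, ?_, k2⟩
    simp only [mem_insert] at k1 ⊢
    tauto

theorem gr_card (u : ℕ) : ∀ v ≤ n,
    (gr n R T H G u v).card * (2 * T + 1) ≤ ∑ b ∈ range n, ch n R (gr n R T H G u v) b := by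
  intro v
  induction v with
  | zero => simp [gr]
  | succ v ih =>
    intro hv
    have ih := ih (by omega)
    rw [gr]
    split_ifs with h
    · have hS : ∀ z ∈ gr n R T H G u v, z < v := fun z hz => (mem_gr hz).1
      have : ∀ b, ∃ p, R b v → (row n R v b).getD p (4 * n) ∈ AH n R u (gr n R T H G u v) ∧
          ch n R (gr n R T H G u v) b + (p + 1) ≤ ch n R (insert v (gr n R T H G u v)) b :=
        fun b => by
        by_cases k : R b v
        · exact (ch_step hS hv k).imp fun p hp _ => hp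
        · exact ⟨0, fun k' => absurd k' k⟩
      choose p hp using this
      have h1 : 2 * T + 1 ≤ ∑ b ∈ range n, if R b v then p b + 1 else 0 := by
        by_contra hc
        have := heavy_false (H := H) (G := G) hS hv h.1 p (fun b _ k => (hp b k).1) (2 * T + 5)
          (by omega)
        rw [h.2] at this
        exact absurd this (by simp)
      have h2 : ∑ b ∈ range n, ch n R (gr n R T H G u v) b +
          (∑ b ∈ range n, if R b v then p b + 1 else 0) ≤
          ∑ b ∈ range n, ch n R (insert v (gr n R T H G u v)) b := by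
        rw [← sum_add_distrib]
        refine sum_le_sum fun b _ => ?_
        split_ifs with k
        · exact (hp b k).2
        · exact ch_mono v b
      rw [card_insert_of_notMem fun k => absurd (hS v k) (lt_irrefl _), Nat.succ_mul]
      omega
    · exact ih

theorem heavy_iff (hv : v < n) :
    go (AH n R u (gr n R T H G u n)) (tab n R H G v) (2 * T + 5) 0 0 = true ↔ rch n R u v := by
  refine ⟨fun h => ?_, fun h => heavy_true (fun z hz => mem_gr hz) hv h _⟩
  by_contra hc
  by_cases k : v ∈ gr n R T H G u n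
  · have := go_false (A := AH n R u (gr n R T H G u n)) (it := tab n R H G v) 0 (fun _ => 0)
      (fun i hi => ?_) (by omega) (fun j hj _ => ?_) (2 * T + 5) 0 0 le_rfl le_rfl (by simp)
    · rw [h] at this
      exact absurd this (by simp)
    · obtain rfl : i = 0 := by omega
      change 4 * v + 2 ∈ _
      rw [AH, mem_mk2]
      exact mem_insert_of_mem k
    · obtain rfl : j = 0 := by omega
      change (4 * v + 2) % 4 = 2
      omega
  · have k1 : v ∉ gr n R T H G u v := fun k => absurd (mem_gr k).1 (lt_irrefl _)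
    have k2 : ∀ m ≤ n, ∀ c, n + c ∉ gr n R T H G u m := fun m hm c k => by
      have := (mem_gr k).1; omega
    rw [go_congr (A' := AH n R u (gr n R T H G u v))] at h
    · refine k ((gr_stable (Nat.lt_succ_self v) hv).2 ?_)
      rw [gr, if_pos ⟨hc, h⟩]
      exact mem_insert_self _ _
    · intro i j
      rcases tab_cases (n := n) (R := R) (H := H) (G := G) v i j with e | e | e | ⟨b, -, e⟩
      · simp [e, AH, mem_mk0]
      · simp [e, AH, mem_mk2]
      · rcases mem_blk0 e with e | e | e | e | e | ⟨b, -, -, e⟩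
        · simp only [e, AH, mem_mk2, mem_insert, k, k1]
        · simp [e, AH, mem_mk0]
        · simp [e, AH, mem_mk2]
        · simp only [e, AH, mem_mk2, mem_insert, k2 n le_rfl, k2 v hv.le]
        · simp only [e, AH, mem_mk2, mem_insert, k2 n le_rfl, k2 v hv.le]
        · simp only [e, AH, mem_mk3]
      · rcases mem_row e with ⟨x, x1, -, e⟩ | ⟨x, -, -, e⟩
        · simp only [e, AH, mem_mk0, mem_insert, gr_stable x1 hv.le]
        · simp only [e, AH, mem_mk1]

end Pool.Agent.Lib.MP_a349b4_lc.TK
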