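import Pool.Agent.Lib.MP_a349b4_lc.TH.Mach

/-! The query program: scans that follow a script of addresses, and a loop over neighbours. -/

set_option autoImplicit false

namespace Pool.Agent.Lib.MP_a349b4_lc.TK

open Function LG
open TH (go Glob bs bs_spec tr_wh)

variable {w : ℕ} {D : List ℕ} {r W : ℕ → ℕ}

def next : Cmd :=
  .seq (.load 25 15) <| .seq (.load 16 25) <| .seq (.bin .add 15 15 3) <| .seq (.load 25 15) <|
  .seq (.bin .add 16 16 25) <| .seq (.bin .add 15 15 3) .skip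

def adr (D : List ℕ) (s i : ℕ) : ℕ := D.getD (D.getD (s + 2 * i) 0) 0 + D.getD (s + 2 * i + 1) 0

theorem next_spec {s i B : ℕ} (h3 : r 3 = 1) (h15 : r 15 = s + 2 * i) (h1 : s + 2 * i + 2 ≤ B)
    (h2 : adr D s i ≤ B) (b5 : 4 * B + 8 < 2 ^ w) :
    Tr w D next r W (fun r' _ => (∀ j < 15, r' j = r j) ∧ r' 17 = r 17 ∧ r' 18 = r 18 ∧
      r' 15 = s + 2 * (i + 1) ∧ r' 16 = adr D s i) 6 := by
  refine Tr.load (D.getD (s + 2 * i) 0) (by rw [h15]) ?_
  refine Tr.load (D.getD (D.getD (s + 2 * i) 0) 0) (by rw [update_self]) ?_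
  refine Tr.bin (s + 2 * i + 1) (by simp [Op.ev, h15, h3]) (by omega) ?_
  refine Tr.load (D.getD (s + 2 * i + 1) 0) (by rw [update_self]) ?_
  refine Tr.bin (adr D s i) (by simp [Op.ev, adr]) (by omega) ?_
  refine Tr.bin (s + 2 * (i + 1)) (by simp [Op.ev, h3]; omega) (by omega)
    (Tr.skip (t := 0) ⟨fun j hj => ?_, by simp, by simp, by simp, by simp⟩)
  simp (disch := omega) only [update_of_ne]

def body : Cmd :=
  .seq (.load 19 16) <| .seq bs <|
  .ite 2 22
    (.seq (.bin .mod 25 19 4) <| .ite 2 25 (.seq (.bin .add 14 13 2) .skip) <|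
      .seq (.bin .mod 25 19 5) <|
      .ite 2 25 (.seq (.const 12 0) <| .seq (.bin .add 14 13 2) .skip) <|
      .seq (.bin .add 14 14 3) next)
    (.seq (.bin .add 16 16 3) <| .seq (.bin .add 14 14 3) .skip)

def proc : Cmd :=
  .seq (.load 17 10) <| .seq (.bin .add 25 10 3) <| .seq (.load 18 25) <| .seq (.load 15 11) <|
  .seq (.const 14 0) <| .seq (.const 12 1) <| .seq next <| .seq (.loop 14 13 body) <|
  .ite 2 12 (.seq (.const 6 1) .skip) .skip

/-- The sorted list of `A` lies at the address stored at `qr`, and the script at the address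
stored at `qs` leads to the part of the table `it` that a scan can visit. -/
def Lay (D : List ℕ) (B Lg qr qs : ℕ) (A : Finset ℕ) (it : ℕ → ℕ → ℕ) : Prop :=
  qr ≤ B ∧ ∃ (l : List ℕ) (o s z : ℕ) (p : ℕ → ℕ), (∀ x, x ∈ l ↔ x ∈ A) ∧ l.Pairwise (· < ·) ∧
    l.length < 2 ^ Lg ∧ D.getD qr 0 = o ∧ D.getD (qr + 1) 0 = o + l.length ∧
    (∀ q < l.length, D.getD (o + q) 0 = l.getD q 0) ∧ o + l.length ≤ B ∧ D.getD qs 0 = s ∧
    s + 2 * z + 2 ≤ B ∧ (∀ i ≤ z, it i (p i) ∈ A ∧ adr D s i + p i ≤ B ∧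
      ∀ j ≤ p i, D.getD (adr D s i + j) 0 = it i j) ∧ ∀ j ≤ p z, it z j ∈ A → it z j % 4 ≠ 0

theorem proc_spec {B Lg K qr qs : ℕ} {A : Finset ℕ} {it : ℕ → ℕ → ℕ} (hG : Glob r)
    (h10 : r 10 = qr) (h11 : r 11 = qs) (h13 : r 13 = K) (hK : K ≤ B)
    (hL : Lay D B Lg qr qs A it) (b5 : 4 * B + 8 < 2 ^ w) :
    Tr w D proc r W (fun r' _ => (∀ j < 12, j ≠ 6 → r' j = r j) ∧ r' 13 = K ∧
      (0 < r' 6 ↔ 0 < r 6 ∨ go A it K 0 0 = true)) (K * (Lg * 11 + 23) + 17) := by
  obtain ⟨b0, l, o, s, z, p, a1, a2, a3, a4, a5, a6, a7, a8, a9, a10, a11⟩ := hL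
  refine Tr.le (t' := 3 + (K * (Lg * 11 + 23) + 2) + 6 + 1 + 1 + 1 + 1 + 1 + 1) ?_ (by omega)
  refine Tr.load o (by rwa [h10]) ?_
  refine Tr.bin (qr + 1) (by simp [Op.ev, h10, hG.g3]) (by omega) ?_
  refine Tr.load (o + l.length) (by simpa using a5) ?_
  refine Tr.load s (by simpa [h11] using a8) ?_
  refine Tr.const (by omega) ?_
  refine Tr.const (by omega) ?_
  refine Tr.seq (next_spec (s := s) (i := 0) (B := B) (by simp [hG.g3]) (by simp) (by omega)
    (by have := (a10 0 (by omega)).2.1; omega) b5) ?_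
  rintro r1 W1 ⟨e1, e2, e3, e4, e5⟩
  refine Tr.seq (tr_wh (t := Lg * 11 + 21)
    (Q := fun r' _ => (∀ j < 12, r' j = r j) ∧ r' 13 = K ∧ r' 12 = (go A it K 0 0).toNat)
    (fun m r' _ => (∀ j < 12, r' j = r j) ∧ r' 13 = K ∧
      r' 17 = o ∧ r' 18 = o + l.length ∧ (r' 14 = K ∧ r' 12 = (go A it K 0 0).toNat ∨
        r' 12 = 1 ∧ r' 14 + m = K ∧ ∃ i ≤ z, ∃ j ≤ p i, r' 15 = s + 2 * (i + 1) ∧
          r' 16 = adr D s i + j ∧ go A it K 0 0 = go A it m i j)) ?_ ?_ ?_ K _ _ ?_) ?_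
  · rintro m r' W' ⟨hf, p13, p17, p18, pp⟩ hc
    obtain ⟨p12, p14, i, hi, j, hj, p15, p16, pg⟩ := pp.resolve_left (by omega)
    have G := hG.frame fun j hj => hf j (by omega)
    obtain ⟨c1, c2, c3⟩ := a10 i hi
    rw [go] at pg
    refine Tr.le (t' := 15 + (Lg * (9 + 2) + 2 + 1 + 1 + 1) + 1) ?_ (by omega)
    refine Tr.load (it i j) (by rw [p16]; exact c3 j hj) ?_
    refine Tr.seq (bs_spec (l := l) (o := o) (x := it i j) (G.frame fun j hj =>
      update_of_ne (by omega) _ _) (by simp [p17]) (by simp [p18]) (by simp) a2 a3 a6 a7 b5) ?_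
    rintro r2 W2 ⟨f2, q22⟩
    have f3 : ∀ j < 19, r2 j = r' j := fun j hj => (f2 j (by omega)).trans
      (update_of_ne (by omega) _ _)
    have q19 : r2 19 = it i j := (f2 19 (by omega)).trans (update_self _ _ _)
    have G2 := G.frame fun j hj => f3 j (by omega)
    have q12 := (f3 12 (by omega)).trans p12
    have q13 := (f3 13 (by omega)).trans p13
    have q14 := f3 14 (by omega)
    have q15 := (f3 15 (by omega)).trans p15
    have q16 := (f3 16 (by omega)).trans p16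
    have q17 := (f3 17 (by omega)).trans p17
    have q18 := (f3 18 (by omega)).trans p18
    have f4 : ∀ j < 12, r2 j = r j := fun j hj => (f3 j (by omega)).trans (hf j hj)
    rw [a1] at q22
    refine Tr.ite (t := 13) (fun h => ?_) fun h => Tr.le (t' := 0 + 1 + 1) ?_ (by omega)
    · rw [G2.g2] at h
      rw [if_pos (q22.1 h)] at pg
      refine Tr.bin (it i j % 2) (by simp [Op.ev, q19, G2.g4]) (by omega) ?_
      refine Tr.ite (t := 10) (fun h1 => Tr.le (t' := 0 + 1) ?_ (by omega)) fun h1 => ?_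
      · have h2 : 0 < it i j % 2 := by simpa [G2.g2] using h1
        rw [if_pos (by omega)] at pg
        refine Tr.bin K (by simp [Op.ev, q13, G2.g2]) (by omega) (Tr.skip ⟨fun j hj => ?_,
          by simp [q13], by simp [q17], by simp [q18], Or.inl ⟨by simp, by simp [q12, pg]⟩⟩)
        simp (disch := omega) only [update_of_ne]
        exact f4 j hj
      · have h2 : it i j % 2 = 0 := by simpa [G2.g2] using h1
        rw [if_neg (by omega)] at pg
        refine Tr.bin (it i j % 4) (by simp [Op.ev, q19, G2.g5]) (by omega) ?_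
        refine Tr.ite (t := 7) (fun h3 => Tr.le (t' := 0 + 1 + 1) ?_ (by omega)) fun h3 => ?_
        · have h4 : 0 < it i j % 4 := by simpa [G2.g2] using h3
          rw [if_pos (by omega)] at pg
          refine Tr.const (by omega) ?_
          refine Tr.bin K (by simp [Op.ev, q13, G2.g2]) (by omega) (Tr.skip ⟨fun j hj => ?_,
            by simp [q13], by simp [q17], by simp [q18], Or.inl ⟨by simp, by simp [pg]⟩⟩)
          simp (disch := omega) only [update_of_ne]
          exact f4 j hj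
        · have h4 : it i j % 4 = 0 := by simpa [G2.g2] using h3
          rw [if_neg (by omega)] at pg
          have hz : i < z := lt_of_le_of_ne hi fun e => by
            subst e
            exact a11 j hj (q22.1 h) h4
          refine Tr.bin (r' 14 + 1) (by simp [Op.ev, q14, G2.g3]) (by omega) ?_
          refine (next_spec (s := s) (i := i + 1) (B := B) (by simp [G2.g3]) (by simp [q15])
            (by omega) (by have := (a10 (i + 1) hz).2.1; omega) b5).imp ?_
          rintro r3 W3 ⟨k1, k2, k3, k4, k5⟩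
          refine ⟨fun j hj => ?_, by simp [k1, q13], by simp [k2, q17], by simp [k3, q18],
            Or.inr ⟨by simp [k1, q12], by simp [k1]; omega, i + 1, hz, 0, Nat.zero_le _, k4, k5,
              pg⟩⟩
          rw [k1 j (by omega)]
          simp (disch := omega) only [update_of_ne]
          exact f4 j hj
    · rw [G2.g2] at h
      have hn : it i j ∉ A := fun k => h (q22.2 k)
      rw [if_neg hn] at pg
      have hj' : j < p i := lt_of_le_of_ne hj fun e => hn (e ▸ c1)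
      refine Tr.bin (adr D s i + (j + 1)) (by simp [Op.ev, q16, G2.g3, Nat.add_assoc])
        (by omega) ?_
      refine Tr.bin (r' 14 + 1) (by simp [Op.ev, q14, G2.g3]) (by omega)
        (Tr.skip ⟨fun j hj => ?_, by simp [q13], by simp [q17], by simp [q18],
          Or.inr ⟨by simp [q12], by simp; omega, i, hi, j + 1, hj', by simp [q15], by simp, pg⟩⟩)
      simp (disch := omega) only [update_of_ne]
      exact f4 j hj
  · rintro r' W' ⟨-, p13, -, -, p | p⟩ <;> omega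
  · rintro m r' W' ⟨hf, p13, -, -, p | ⟨p12, p14, i, -, j, -, -, -, pg⟩⟩ hc
    · exact ⟨hf, p13, p.2⟩
    · obtain rfl : m = 0 := by omega
      exact ⟨hf, p13, by rw [p12, pg]; rfl⟩
  · refine ⟨fun j hj => ?_, by simp [e1, h13], by simp [e2], by simp [e3],
      Or.inr ⟨by simp [e1], by simp [e1], 0, Nat.zero_le _, 0, Nat.zero_le _, e4, e5, rfl⟩⟩
    rw [e1 j (by omega)]
    simp (disch := omega) only [update_of_ne]
  · rintro r2 W2 ⟨k1, k2, k3⟩
    have k4 := (k1 2 (by omega)).trans hG.g2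
    refine Tr.ite (t := 1) (fun h => Tr.const (t := 0) (by omega) (Tr.skip ⟨fun j hj h6 => ?_,
      by simp [k2], ?_⟩)) fun h => Tr.skip ⟨fun j hj _ => k1 j hj, k2, ?_⟩
    · rw [update_of_ne h6, k1 j hj]
    · rw [k4, k3] at h
      cases hb : go A it K 0 0
      · simp [hb] at h
      · simp
    · rw [k4, k3] at h
      cases hb : go A it K 0 0
      · simp [k1]
      · simp [hb] at h

def step : Cmd := .seq (.load 10 7) <| .seq proc <| .seq (.bin .add 7 7 3) .skip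

def whole : Cmd :=
  .seq (.const 3 1) <| .seq (.const 4 2) <| .seq (.const 5 4) <| .seq (.const 25 10) <|
  .seq (.bin .mul 0 0 25) <| .seq (.bin .mul 1 1 25) <| .seq (.const 25 9) <|
  .seq (.bin .add 25 0 25) <| .seq (.load 7 25) <| .seq (.bin .add 25 25 3) <|
  .seq (.load 8 25) <| .seq (.load 13 7) <| .seq (.bin .add 7 7 3) <| .seq (.load 9 7) <|
  .seq (.bin .add 7 7 3) <| .seq (.bin .add 10 0 2) <| .seq (.bin .add 11 1 3) <| .seq proc <|
  .seq (.bin .add 10 1 5) <| .seq (.bin .add 11 0 5) <| .seq (.bin .add 11 11 3) <| .seq proc <|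
  .seq (.bin .add 11 1 3) <| .seq (.bin .add 13 9 2) <| .loop 7 8 step

def prog : List Instr := whole.comp 0 ++ [.jlt 2 6 (whole.len + 2), .halt false, .halt true]

variable {B Lg K1 K2 u v h m : ℕ} {A A' : Finset ℕ} {Ap : ℕ → Finset ℕ} {it it' : ℕ → ℕ → ℕ}

theorem whole_spec (hL : Lay D B Lg (10 * u) (10 * v + 1) A it)
    (hL' : Lay D B Lg (10 * v + 4) (10 * u + 5) A' it') (c1 : D.getD (10 * u + 9) 0 = h)
    (c2 : D.getD (10 * u + 9 + 1) 0 = h + 2 + m) (c3 : D.getD h 0 = K1)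
    (c4 : D.getD (h + 1) 0 = K2) (c5 : h + 2 + m ≤ B) (c6 : K1 ≤ B) (c7 : K2 ≤ B)
    (hP : ∀ i < m, Lay D B Lg (D.getD (h + 2 + i) 0) (10 * v + 1) (Ap i) it)
    (b5 : 4 * B + 8 < 2 ^ w) :
    Tr w D whole (fun i => if i = 0 then u else if i = 1 then v else 0) W
      (fun r' _ => r' 2 = 0 ∧ (0 < r' 6 ↔ go A it K1 0 0 = true ∨ go A' it' K1 0 0 = true ∨
        ∃ i < m, go (Ap i) it K2 0 0 = true))
      (2 * (K1 * (Lg * 11 + 23)) + m * (K2 * (Lg * 11 + 23) + 21) + 58) := by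
  have b1 := hL.1
  have b2 := hL'.1
  refine Tr.le (t' := m * (K2 * (Lg * 11 + 23) + 21) + 2 + 1 + 1 + (K1 * (Lg * 11 + 23) + 17) +
    1 + 1 + 1 + (K1 * (Lg * 11 + 23) + 17) + 1 + 1 + 1 + 1 + 1 + 1 + 1 + 1 + 1 + 1 + 1 + 1 + 1 + 1 +
    1 + 1 + 1) ?_ (by omega)
  refine Tr.const (by omega) (Tr.const (by omega) (Tr.const (by omega) (Tr.const (by omega) ?_)))
  refine Tr.bin (10 * u) (by simp [Op.ev, Nat.mul_comm]) (by omega) ?_
  refine Tr.bin (10 * v) (by simp [Op.ev, Nat.mul_comm]) (by omega) ?_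
  refine Tr.const (by omega) ?_
  refine Tr.bin (10 * u + 9) (by simp [Op.ev]) (by omega) ?_
  refine Tr.load h (by simpa using c1) ?_
  refine Tr.bin (10 * u + 9 + 1) (by simp [Op.ev]) (by omega) ?_
  refine Tr.load (h + 2 + m) (by simpa using c2) ?_
  refine Tr.load K1 (by simpa using c3) ?_
  refine Tr.bin (h + 1) (by simp [Op.ev]) (by omega) ?_
  refine Tr.load K2 (by simpa using c4) ?_
  refine Tr.bin (h + 2) (by simp [Op.ev]) (by omega) ?_
  refine Tr.bin (10 * u) (by simp [Op.ev]) (by omega) ?_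
  refine Tr.bin (10 * v + 1) (by simp [Op.ev]) (by omega) ?_
  refine Tr.seq (proc_spec ⟨by simp, by simp, by simp, by simp⟩ (by simp) (by simp) (by simp) c6
    hL b5) ?_
  rintro r1 W1 ⟨f1, p1, q1⟩
  have e0 : r1 0 = 10 * u := by simp [f1]
  have e1 : r1 1 = 10 * v := by simp [f1]
  have e7 : r1 7 = h + 2 := by simp [f1]
  have e8 : r1 8 = h + 2 + m := by simp [f1]
  have e9 : r1 9 = K2 := by simp [f1]
  have G : Glob r1 := ⟨by simp [f1], by simp [f1], by simp [f1], by simp [f1]⟩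
  have q1' : 0 < r1 6 ↔ go A it K1 0 0 = true := by simpa using q1
  clear f1 q1
  refine Tr.bin (10 * v + 4) (by simp [Op.ev, e1, G.g5]) (by omega) ?_
  refine Tr.bin (10 * u + 4) (by simp [Op.ev, e0, G.g5]) (by omega) ?_
  refine Tr.bin (10 * u + 5) (by simp [Op.ev, G.g3]) (by omega) ?_
  refine Tr.seq (proc_spec ⟨by simp [G.g2], by simp [G.g3], by simp [G.g4], by simp [G.g5]⟩
    (by simp) (by simp) (by simp [p1]) c6 hL' b5) ?_
  rintro r2 W2 ⟨f2, -, q2⟩
  have G2 : Glob r2 := ⟨by simp [f2, G.g2], by simp [f2, G.g3], by simp [f2, G.g4],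
    by simp [f2, G.g5]⟩
  refine Tr.bin (10 * v + 1) (by simp [Op.ev, f2, e1, G.g3]) (by omega) ?_
  refine Tr.bin K2 (by simp [Op.ev, f2, e9, G.g2]) (by omega) ?_
  refine (Tr.loop (t := K2 * (Lg * 11 + 23) + 19) (fun i r' _ => Glob r' ∧ r' 7 = h + 2 + i ∧
    r' 8 = h + 2 + m ∧ r' 11 = 10 * v + 1 ∧ r' 13 = K2 ∧ (0 < r' 6 ↔ go A it K1 0 0 = true ∨
      go A' it' K1 0 0 = true ∨ ∃ x < i, go (Ap x) it K2 0 0 = true)) m ?_ ?_ ?_).imp ?_
  · rintro i r' W' hi ⟨G3, k7, k8, k11, k13, k6⟩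
    refine ⟨by omega, Tr.le (t' := 1 + (K2 * (Lg * 11 + 23) + 17) + 1) ?_ (by omega)⟩
    refine Tr.load _ (by rw [k7]) ?_
    refine Tr.seq (proc_spec (G3.frame fun j hj => update_of_ne (by omega) _ _) (update_self _ _ _)
      (by simp [k11]) (by simp [k13]) c7 (hP i hi) b5) ?_
    rintro r3 W3 ⟨f3, p3, q3⟩
    refine Tr.bin (t := 0) (h + 2 + (i + 1)) (by simp [Op.ev, f3, k7, G3.g3]; omega) (by omega)
      (Tr.skip ⟨⟨by simp [f3, G3.g2], by simp [f3, G3.g3], by simp [f3, G3.g4],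
        by simp [f3, G3.g5]⟩, by simp, by simp [f3, k8], by simp [f3, k11], by simp [p3], ?_⟩)
    rw [update_of_ne (by omega), q3, update_of_ne (by omega), k6, Nat.exists_lt_succ_right,
      or_assoc, or_assoc]
  · rintro r' W' ⟨-, k7, k8, -⟩
    omega
  · refine ⟨G2.frame fun j hj => ?_, by simp [f2, e7], by simp [f2, e8], by simp, by simp, ?_⟩
    · simp (disch := omega) only [update_of_ne]
    · simpa [q1'] using q2
  · rintro r' W' ⟨G3, -, -, -, -, k6⟩
    exact ⟨G3.g2, k6⟩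

theorem mach (hL : Lay D B Lg (10 * u) (10 * v + 1) A it)
    (hL' : Lay D B Lg (10 * v + 4) (10 * u + 5) A' it') (c1 : D.getD (10 * u + 9) 0 = h)
    (c2 : D.getD (10 * u + 9 + 1) 0 = h + 2 + m) (c3 : D.getD h 0 = K1)
    (c4 : D.getD (h + 1) 0 = K2) (c5 : h + 2 + m ≤ B) (c6 : K1 ≤ B) (c7 : K2 ≤ B)
    (hP : ∀ i < m, Lay D B Lg (D.getD (h + 2 + i) 0) (10 * v + 1) (Ap i) it)
    (b5 : 4 * B + 8 < 2 ^ w) (W : ℕ → ℕ) : ∃ b,
    run prog w D (2 * (K1 * (Lg * 11 + 23)) + m * (K2 * (Lg * 11 + 23) + 21) + 60) 0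
      (fun i => if i = 0 then u else if i = 1 then v else 0) W = some b ∧
      (b = true ↔ go A it K1 0 0 = true ∨ go A' it' K1 0 0 = true ∨
        ∃ i < m, go (Ap i) it K2 0 0 = true) := by
  obtain ⟨r', W', t, h1, h2, h3, h4⟩ := whole_spec (W := W) hL hL' c1 c2 c3 c4 c5 c6 c7 hP b5
  have a0 : At prog 0 prog := fun k _ => by rw [Nat.zero_add]
  have a1 := At.append (l1 := whole.comp 0) a0
  rw [Cmd.length_comp] at a1
  have a2 := a1.2.cons
  have a3 := a2.2.cons
  have a4 := a3.2.cons.1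
  have s := h1.sim 0 a1.1 2
  rw [run, a2.1] at s
  by_cases hc : r' 2 < r' 6
  · refine ⟨true, run_mono (t := 2 + t) ?_ (by omega), iff_of_true rfl (h4.1 (h3 ▸ hc))⟩
    simp only [hc, if_true] at s
    rw [s, run, show whole.len + 2 = 0 + whole.len + 1 + 1 by omega, a4]
  · refine ⟨false, run_mono (t := 2 + t) ?_ (by omega),
      iff_of_false (by simp) fun k => hc (h3 ▸ h4.2 k)⟩
    simp only [hc, if_false] at s
    rw [s, run, a3.1]

end Pool.Agent.Lib.MP_a349b4_lc.TK
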