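import Pool.Agent.Lib.MP_a349b4_lc.TK.Root
import Pool.Agent.Lib.MP_a349b4_lc.TK.Mach

/-! The scripts of addresses, and the three kinds of scans together. -/

set_option autoImplicit false

namespace Pool.Agent.Lib.MP_a349b4_lc.TK

open Finset
open TH (go inL desc rch outS mem_inL mem_outS length_inL length_desc getD_inL exists_idx)

variable (n : ℕ) (R : ℕ → ℕ → Prop) [DecidableRel R] (T H G β : ℕ) (V : Finset ℕ)

def rcd (b : ℕ) : List ℕ := row n R n b ++ [4 * n]

def idx (v : ℕ) : ℕ → ℕ
  | 0 => 10 * v + 2 + β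
  | i + 1 => if i < (inL n R v).length then 10 * (inL n R v).getD i 0 + 3 + β else 10 * v + 2 + β

def ofs (v : ℕ) : ℕ → ℕ
  | 0 => 0
  | i + 1 => if i < (inL n R v).length then (desc R ((inL n R v).getD i 0) n).length -
      (desc R ((inL n R v).getD i 0) v).length else (inL n R v).length + 4

def scr (v : ℕ) : List ℕ := (List.range (2 * ((inL n R v).length + 2))).map fun z =>
  if z % 2 = 0 then idx n R β v (z / 2) else ofs n R v (z / 2)

def lst (u : ℕ) : List ℕ :=
  if (inL n (fun x y => R y x) u).length ≤ G then inL n (fun x y => R y x) u else []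

variable {n R T H G β V} {u v : ℕ}

theorem desc_split (b : ℕ) {m : ℕ} (h : v ≤ m) : ∃ l, desc R b m = l ++ desc R b v := by
  induction h with
  | refl => exact ⟨[], rfl⟩
  | step _ ih =>
    obtain ⟨l, hl⟩ := ih
    rw [desc]
    split_ifs
    · exact ⟨_ :: l, by rw [hl]; rfl⟩
    · exact ⟨l, hl⟩

theorem rcd_get (hv : v ≤ n) (b : ℕ) :
    (desc R b n).length - (desc R b v).length + (row n R v b).length < (rcd n R b).length ∧
    ∀ j ≤ (row n R v b).length, (rcd n R b).getD ((desc R b n).length - (desc R b v).length + j) 0 =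
      (row n R v b).getD j (4 * n) := by
  obtain ⟨l, hl⟩ := desc_split (R := R) b hv
  have e : rcd n R b = l.map (fun z => 4 * z) ++ (row n R v b ++ [4 * n]) := by
    simp [rcd, row, hl]
  have e2 : (desc R b n).length - (desc R b v).length = l.length := by simp [hl]
  rw [e, e2]
  refine ⟨by simp, fun j hj => ?_⟩
  rw [List.getD_append_right _ _ _ _ (by simp), List.length_map, Nat.add_sub_cancel_left]
  rcases hj.lt_or_eq with k | rfl
  · rw [List.getD_append _ _ _ _ k, List.getD_eq_getElem _ _ k, List.getD_eq_getElem _ _ k]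
  · simp

theorem length_scr : (scr n R β v).length = 2 * ((inL n R v).length + 2) := by simp [scr]

theorem scr_get {z : ℕ} (h : z < 2 * ((inL n R v).length + 2)) : (scr n R β v).getD z 0 =
    if z % 2 = 0 then idx n R β v (z / 2) else ofs n R v (z / 2) := by
  rw [List.getD_eq_getElem _ _ (by rwa [length_scr])]
  simp [scr]

theorem idx_lt (hv : v < n) (i : ℕ) : idx n R β v i + 7 ≤ 10 * n + β := by
  rcases i with _ | i
  · rw [idx]; omega
  · rw [idx]
    split_ifs with h
    · have := (getD_inL h).1; omega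
    · omega

theorem card_outS (v : ℕ) : (outS n R v).card ≤ n :=
  (card_filter_le _ _).trans (card_range n).le

theorem scr_le (hv : v < n) {x : ℕ} (h : x ∈ scr n R β v) : x ≤ 10 * n + β := by
  obtain ⟨z, -, rfl⟩ := List.mem_map.1 h
  split_ifs
  · have := idx_lt (R := R) (β := β) hv (z / 2); omega
  · rcases z / 2 with _ | i
    · exact Nat.zero_le _
    · rw [ofs]
      split_ifs
      · have := card_outS (n := n) (R := R) ((inL n R v).getD i 0)
        rw [length_desc _ n]
        rw [outS] at this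
        omega
      · have := card_outS (n := n) (R := fun x y => R y x) v
        rw [length_inL]
        omega

theorem blk0_le (hv : v < n) {x : ℕ} (h : x ∈ blk0 n R H G v) : x ≤ 4 * n + 10 := by
  rcases mem_blk0 h with e | e | e | e | e | ⟨b, _, -, e⟩ <;> omega

theorem rcd_le {x : ℕ} (h : x ∈ rcd n R v) : x ≤ 4 * n := by
  rcases List.mem_append.1 h with h | h
  · rcases mem_row h with ⟨_, _, -, e⟩ | ⟨_, _, -, e⟩ <;> omega
  · exact (List.mem_singleton.1 h).le

theorem length_rcd : (rcd n R v).length = (outS n R v).card + (inL n R v).length + 1 := by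
  simp [rcd, row, length_desc, outS, Nat.add_assoc]

theorem blk_get {F : ℕ → List ℕ} (hv : v < n) (f2 : F (10 * v + 2 + β) = blk0 n R H G v)
    (f3 : ∀ x, F (10 * x + 3 + β) = rcd n R x) (i : ℕ) :
    ofs n R v i + plen n R v i < (F (idx n R β v i)).length ∧ ∀ j ≤ plen n R v i,
      (F (idx n R β v i)).getD (ofs n R v i + j) 0 = tab n R H G v i j := by
  have e : ∀ j ≤ (inL n R v).length + 4, (blk0 n R H G v).getD j 0 = tab n R H G v 0 j :=
    fun j hj => by
    have : j < (blk0 n R H G v).length := by rw [length_blk0]; omega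
    rw [tab, blk, List.getD_eq_getElem _ _ this, List.getD_eq_getElem _ _ this]
  rcases i with _ | i
  · rw [idx, ofs, plen, f2, length_blk0]
    exact ⟨by omega, fun j hj => by rw [Nat.zero_add, e j hj]⟩
  · rw [idx, ofs, plen]
    split_ifs with h
    · rw [f3]
      exact ⟨(rcd_get hv.le _).1, fun j hj => by rw [tab_succ h, (rcd_get hv.le _).2 j hj]⟩
    · rw [f2, length_blk0]
      refine ⟨by omega, fun j hj => ?_⟩
      obtain rfl : j = 0 := by omega
      rw [Nat.add_zero, e _ le_rfl, tab_last, tab_end (by omega)]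
      rfl

theorem off_mono {off : ℕ → ℕ} {F : ℕ → List ℕ} {Q : ℕ} {P : ℕ → Prop}
    (d4 : ∀ a < Q, off (a + 1) = off a + (F a).length ∧ P a) : ∀ a ≤ Q, off a ≤ off Q :=
  fun a ha => by
  induction ha using Nat.decreasingInduction with
  | self => exact le_rfl
  | of_succ k hk ih => have := (d4 k hk).1; omega

theorem lay_of {D : List ℕ} {off : ℕ → ℕ} {F : ℕ → List ℕ} {B Lg qr : ℕ} {A : Finset ℕ}
    (d2 : 10 * n ≤ B) (d1 : off (10 * n) ≤ B) (d3 : ∀ a ≤ 10 * n, D.getD a 0 = off a)
    (d4 : ∀ a < 10 * n, off (a + 1) = off a + (F a).length ∧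
      ∀ q < (F a).length, D.getD (off a + q) 0 = (F a).getD q 0)
    (hβ : β ≤ 4) (hv : v < n) (h1 : qr < 10 * n) (f0 : F qr = A.sort)
    (f1 : F (10 * v + 1 + β) = scr n R β v) (f2 : F (10 * v + 2 + β) = blk0 n R H G v)
    (f3 : ∀ x, F (10 * x + 3 + β) = rcd n R x) (hA : ∀ k ∈ A, k < 4 * n + 8)
    (hM : 4 * n + 8 < 2 ^ Lg) (hF : Fit n R H G A v) :
    Lay D B Lg qr (10 * v + 1 + β) A (tab n R H G v) := by
  have mono := off_mono d4
  obtain ⟨z, hz, p, p1, p2⟩ := hF
  obtain ⟨c1, c2⟩ := d4 qr h1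
  obtain ⟨c3, c4⟩ := d4 (10 * v + 1 + β) (by omega)
  have m1 := mono (qr + 1) h1
  have m2 := mono (10 * v + 1 + β + 1) (by omega)
  rw [f0] at c1 c2
  rw [f1, length_scr] at c3 c4
  refine ⟨by omega, A.sort, off qr, off (10 * v + 1 + β), z, p, fun x => mem_sort _,
    (sortedLT_sort A).pairwise, ?_, d3 _ h1.le, (d3 _ h1).trans c1, c2, by omega,
    d3 _ (by omega), by omega, fun i hi => ?_, p2⟩
  · rw [length_sort]
    refine lt_of_le_of_lt ?_ hM
    rw [← card_range (4 * n + 8)]
    exact card_le_card fun k hk => mem_range.2 (hA k hk)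
  · have k0 := idx_lt (R := R) (β := β) hv i
    have k1 : adr D (off (10 * v + 1 + β)) i = off (idx n R β v i) + ofs n R v i := by
      rw [adr, Nat.add_assoc _ (2 * i), c4 _ (by omega), c4 _ (by omega), scr_get (by omega),
        scr_get (by omega), if_pos (by omega), if_neg (by omega),
        show 2 * i / 2 = i by omega, show (2 * i + 1) / 2 = i by omega, d3 _ (by omega)]
    obtain ⟨k2, k3⟩ := blk_get hv f2 f3 i
    obtain ⟨k4, k5⟩ := d4 (idx n R β v i) (by omega)
    have k6 := mono (idx n R β v i + 1) (by omega)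
    obtain ⟨k7, k8⟩ := p1 i hi
    refine ⟨k8, by omega, fun j hj => ?_⟩
    rw [k1, Nat.add_assoc, k5 _ (by omega), k3 j (by omega)]

theorem lst_get {i : ℕ} (h : i < (lst n R G u).length) :
    (lst n R G u).getD i 0 < n ∧ R u ((lst n R G u).getD i 0) := by
  rw [lst] at h ⊢
  split_ifs at h ⊢
  · exact getD_inL h
  · simp at h

theorem length_lst : (lst n R G u).length ≤ G ∧ (lst n R G u).length ≤ (outS n R u).card := by
  have : (inL n (fun x y => R y x) u).length = (outS n R u).card := length_inL u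
  rw [lst]
  split_ifs
  · omega
  · simp

theorem both (hT : H ≤ T) (hu : u < n) (hv : v < n) :
    (go (root n R T H G V u) (tab n R H G v) (2 * T + 5) 0 0 = true ∨
      go (root n (fun x y => R y x) T H G V v) (tab n (fun x y => R y x) H G u)
        (2 * T + 5) 0 0 = true ∨ ∃ i < (lst n R G u).length,
      go (pairS n R ((lst n R G u).getD i 0)) (tab n R H G v) (G + 5) 0 0 = true) ↔
    rch n R u v := by
  have e1 : (inL n R v).length = (outS n (fun x y => R y x) v).card := length_inL v
  have e2 : (inL n (fun x y => R y x) u).length = (outS n R u).card := length_inL u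
  constructor
  · rintro (h | h | ⟨i, hi, h⟩)
    · exact root_sound hv hT h
    · obtain ⟨b, hb, a, ha, k1, k2, k3⟩ := root_sound hu hT h
      exact ⟨a, ha, b, hb, k3, k2, k1⟩
    · obtain ⟨b, hb, k1, k2⟩ := pair_sound h
      exact ⟨_, (lst_get hi).1, b, hb, (lst_get hi).2, k1, k2⟩
  · rintro ⟨a, ha, b, hb, k1, k2, k3⟩
    by_cases c1 : H < (outS n R u).card
    · exact Or.inl (root_heavy hv c1 ⟨a, ha, b, hb, k1, k2, k3⟩)
    by_cases c2 : H < (outS n (fun x y => R y x) v).card
    · exact Or.inr (Or.inl (root_heavy hu c2 ⟨b, hb, a, ha, k3, k2, k1⟩))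
    by_cases c3 : a ∉ V ∨ (b ∈ V ∧ G < (outS n R u).card)
    · exact Or.inl (root_light hv c1 (by omega) ha hb k1 k2 k3 c3)
    by_cases c4 : b ∉ V ∨ (a ∈ V ∧ G < (outS n (fun x y => R y x) v).card)
    · exact Or.inr (Or.inl (root_light hu c2 (by omega) hb ha k3 k2 k1 c4))
    have c5 : (outS n R u).card ≤ G := by
      by_contra k
      exact c3 (Or.inr ⟨by_contra fun k => c4 (Or.inl k), by omega⟩)
    have c6 : (inL n R v).length ≤ G := by
      by_contra k
      exact c4 (Or.inr ⟨by_contra fun k => c3 (Or.inl k), by omega⟩)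
    obtain ⟨i, hi, e⟩ := exists_idx (n := n) (R := fun x y => R y x) ha k1
    have e3 : lst n R G u = inL n (fun x y => R y x) u := if_pos (by omega)
    exact Or.inr (Or.inr ⟨i, e3 ▸ hi, by
      rw [e3, e]; exact pair_true hv hb k2 k3 (by omega) c6⟩)

end Pool.Agent.Lib.MP_a349b4_lc.TK
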