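import Pool.Agent.Lib.MP_a349b4_lc.TK.Lay
import Pool.Agent.Lib.MP_a349b4_lc.TH.Main

/-! The choice of thresholds, the memory image and the final bound. -/

set_option autoImplicit false

namespace Pool.Agent.Lib.MP_a349b4_lc.TK

open Finset LG
open TH (inL outS length_inL deg_sum Rl rch_iff exists_csr)

theorem params (n : ℕ) (d : ℕ → ℕ) {N S T G : ℕ} (hd : ∑ a ∈ range n, d a ≤ 2 * N) (hN : 0 < N)
    (hS : N ≤ S) (hG : T < (G + 1) * (G + 1)) (hGT : G ≤ T)
    (h : N ^ 4 ≤ S ^ 2 * T ^ 3 ∨ (N ^ 2 ≤ S * T ^ 2 ∧ N ^ 6 ≤ S ^ 4 * T)) :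
    ∃ (H θ : ℕ) (V : Finset ℕ), H ≤ T ∧ N * N ≤ S * (T * (H + 1)) ∧
      (∀ a < n, a ∉ V → d a ≤ θ) ∧ θ * N ≤ S ∧ (H ≤ G ∨ N * V.card ≤ 2 * S * (G + 1)) := by
  rcases h with h | ⟨h, h'⟩
  · refine ⟨G, 0, range n, hGT, (Nat.pow_le_pow_iff_left two_ne_zero).1 ?_,
      fun a ha k => absurd (mem_range.2 ha) k, by omega, Or.inl le_rfl⟩
    calc _ = N ^ 4 := by ring
      _ ≤ S ^ 2 * T ^ 2 * T := by rw [Nat.mul_assoc, ← pow_succ]; exact h
      _ ≤ S ^ 2 * T ^ 2 * ((G + 1) * (G + 1)) := Nat.mul_le_mul_left _ hG.le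
      _ = _ := by ring
  · refine ⟨T, S / N, (range n).filter fun a => S / N < d a, le_rfl, by nlinarith,
      fun a ha k => ?_, Nat.div_mul_le_self _ _, Or.inr ?_⟩
    · rw [mem_filter, mem_range] at k
      omega
    · obtain ⟨V, hV⟩ : ∃ V, V = (range n).filter fun a => S / N < d a := ⟨_, rfl⟩
      have k1 : V.card * (S / N + 1) ≤ 2 * N := by
        rw [← smul_eq_mul]
        refine (card_nsmul_le_sum V d _ fun a ha => ?_).trans
          ((sum_le_sum_of_subset (hV ▸ filter_subset _ _)).trans hd)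
        rw [hV, mem_filter] at ha
        exact ha.2
      have k2 : S ≤ N * (S / N + 1) := (Nat.lt_mul_div_succ S hN).le
      have k3 : N ^ 3 ≤ S ^ 2 * (G + 1) := (Nat.pow_le_pow_iff_left two_ne_zero).1 <| by
        calc _ = N ^ 6 := by ring
          _ ≤ S ^ 4 * ((G + 1) * (G + 1)) := h'.trans (Nat.mul_le_mul_left _ hG.le)
          _ = _ := by ring
      rw [← hV]
      refine Nat.le_of_mul_le_mul_right (c := S) ?_ (by omega)
      calc _ ≤ N * V.card * (N * (S / N + 1)) := Nat.mul_le_mul_left _ k2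
        _ = N ^ 2 * (V.card * (S / N + 1)) := by ring
        _ ≤ N ^ 2 * (2 * N) := Nat.mul_le_mul_left _ k1
        _ = 2 * N ^ 3 := by ring
        _ ≤ 2 * (S ^ 2 * (G + 1)) := Nat.mul_le_mul_left _ k3
        _ = _ := by ring

theorem sum_ten (g : ℕ → ℕ) (n : ℕ) :
    ∑ b ∈ range (10 * n), g b = ∑ x ∈ range n, ∑ c ∈ range 10, g (10 * x + c) := by
  induction n with
  | zero => simp
  | succ n ih => rw [Nat.mul_succ, sum_range_add, ih, sum_range_succ _ n]

theorem small {n S T w : ℕ} (E : Finset (Fin n × Fin n)) (hT : 1 ≤ T) (hn0 : 0 < n)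
    (hTS : T ≤ S) (hS : n + E.card ≤ S) (h : (n + E.card) ^ 4 ≤ S ^ 2 * T ^ 3 ∨
      ((n + E.card) ^ 2 ≤ S * T ^ 2 ∧ (n + E.card) ^ 6 ≤ S ^ 4 * T)) (hw : 1500 * S ≤ 2 ^ w) :
    ∃ D : List ℕ, Answers prog w 3 E D (1500 * T * (Nat.log 2 n + 1)) ∧ D.length ≤ 1500 * S := by
  have inst : DecidableRel (Rl E) := Classical.decRel _
  have s1 := deg_sum n (Rl E) E (fun e => e.1) (fun e => e.2) (fun e => e.1.2) fun _ _ h => h
  have s2 := deg_sum n (fun x y => Rl E y x) E (fun e => e.2) (fun e => e.1) (fun e => e.2.2)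
    fun _ _ h => h.imp Eq.symm fun ⟨e, k1, k2, k3⟩ => ⟨e, k1, k3, k2⟩
  obtain ⟨N, hN⟩ : ∃ N, N = n + E.card := ⟨_, rfl⟩
  rw [← hN] at s1 s2 hS h
  have hn : n ≤ N := by omega
  have hr := fun u v : Fin n => rch_iff (E := E) u v
  generalize Rl E = R at *
  obtain ⟨G, hG⟩ : ∃ G, G = Nat.sqrt T := ⟨_, rfl⟩
  have g1 : G * G ≤ T := hG ▸ Nat.sqrt_le T
  have g2 : 1 ≤ G := hG ▸ Nat.sqrt_pos.2 hT
  have g3 : G ≤ T := hG ▸ Nat.sqrt_le_self T
  have e1 : ∀ v, (inL n R v).length = (outS n (fun x y => R y x) v).card := length_inL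
  have e2 : ∀ v, (inL n (fun x y => R y x) v).length = (outS n R v).card := length_inL
  obtain ⟨H, θ, V, a1, a2, a3, a4, a5⟩ := params n
    (fun a => (outS n R a).card + (outS n (fun x y => R y x) a).card) (N := N) (G := G)
    (by rw [sum_add_distrib]; omega) (by omega) hS (hG ▸ Nat.lt_succ_sqrt T) g3 h
  have z1 := root_size (R := R) s1 (by simpa only [e1] using s2) hn hT hS a2
    (fun a ha k => by have := a3 a ha k; rw [e1]; omega) a4 a5
  have z2 := root_size (R := fun x y => R y x) s2 (by simpa only [e2] using s1) hn hT hS a2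
    (fun a ha k => by have := a3 a ha k; rw [e2]; omega) a4 a5
  have z3 : ∑ x ∈ range n, (pairS n R x).card ≤ ∑ x ∈ range n, ((outS n R x).card + 2) :=
    sum_le_sum fun x _ => card_pair x
  have z4 : ∑ x ∈ range n, (lst n R G x).length ≤ ∑ x ∈ range n, (outS n R x).card :=
    sum_le_sum fun x _ => length_lst.2
  obtain ⟨F, hF⟩ : ∃ F : ℕ → List ℕ, F = fun z => [(root n R T H G V (z / 10)).sort (· ≤ ·),
    scr n R 0 (z / 10), blk0 n R H G (z / 10), rcd n R (z / 10),
    (root n (fun x y => R y x) T H G V (z / 10)).sort (· ≤ ·), scr n (fun x y => R y x) 4 (z / 10),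
    blk0 n (fun x y => R y x) H G (z / 10), rcd n (fun x y => R y x) (z / 10),
    (pairS n R (z / 10)).sort (· ≤ ·),
    (2 * T + 5) :: (G + 5) :: (lst n R G (z / 10)).map fun a => 10 * a + 8].getD (z % 10) [] :=
    ⟨_, rfl⟩
  have dv : ∀ x, ∀ c < 10, (10 * x + c) / 10 = x ∧ (10 * x + c) % 10 = c := by omega
  have f0 : ∀ x, F (10 * x) = (root n R T H G V x).sort := fun x => by simp [hF]
  have f1 : ∀ x, F (10 * x + 1) = scr n R 0 x := fun x => by simp [hF, dv]
  have f2 : ∀ x, F (10 * x + 2) = blk0 n R H G x := fun x => by simp [hF, dv]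
  have f3 : ∀ x, F (10 * x + 3) = rcd n R x := fun x => by simp [hF, dv]
  have f4 : ∀ x, F (10 * x + 4) = (root n (fun x y => R y x) T H G V x).sort := fun x => by
    simp [hF, dv]
  have f5 : ∀ x, F (10 * x + 5) = scr n (fun x y => R y x) 4 x := fun x => by simp [hF, dv]
  have f6 : ∀ x, F (10 * x + 6) = blk0 n (fun x y => R y x) H G x := fun x => by simp [hF, dv]
  have f7 : ∀ x, F (10 * x + 7) = rcd n (fun x y => R y x) x := fun x => by simp [hF, dv]
  have f8 : ∀ x, F (10 * x + 8) = (pairS n R x).sort := fun x => by simp [hF, dv]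
  have f9 : ∀ x, F (10 * x + 9) = (2 * T + 5) :: (G + 5) :: (lst n R G x).map fun a => 10 * a + 8 :=
    fun x => by simp [hF, dv]
  obtain ⟨D, off, d1, d2, d3, d4, d5⟩ := exists_csr F (10 * n)
  rw [sum_ten] at d2
  simp only [sum_range_succ, range_zero, sum_empty, Nat.add_zero, f0, f1, f2, f3, f4, f5, f6, f7,
    f8, f9, length_sort, length_scr, length_blk0, length_rcd, List.length_cons, List.length_map,
    e1, e2, sum_add_distrib, ← mul_sum, sum_const, card_range, smul_eq_mul] at d2 z3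
  have hsz : off (10 * n) ≤ 70 * S := by omega
  have hlog : 4 * n + 8 < 2 ^ (Nat.log 2 n + 4) := by
    have h1 := Nat.lt_pow_succ_log_self (b := 2) (by omega) n
    rw [pow_succ] at h1
    rw [pow_add]
    omega
  refine ⟨D, ⟨fun x hx => ?_, fun u v W => ?_⟩, by omega⟩
  · rcases d5 x hx with h | ⟨c, hc, h⟩
    · omega
    · obtain ⟨y, hy, e, he, rfl⟩ : ∃ y < n, ∃ e < 10, c = 10 * y + e :=
        ⟨c / 10, by omega, c % 10, by omega, by omega⟩
      interval_cases e
      · have := root_le ((mem_sort _).1 (f0 y ▸ h)); omega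
      · have := scr_le hy (f1 y ▸ h); omega
      · have := blk0_le hy (f2 y ▸ h); omega
      · have := rcd_le (f3 y ▸ h); omega
      · have := root_le ((mem_sort _).1 (f4 y ▸ h)); omega
      · have := scr_le hy (f5 y ▸ h); omega
      · have := blk0_le hy (f6 y ▸ h); omega
      · have := rcd_le (f7 y ▸ h); omega
      · have := pair_le ((mem_sort _).1 (f8 y ▸ h)); omega
      · rw [f9, List.mem_cons, List.mem_cons, List.mem_map] at h
        rcases h with h | h | ⟨a, h, rfl⟩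
        · omega
        · omega
        · obtain ⟨i, hi, rfl⟩ := TH.mem_iff_getD.1 h
          have := (lst_get hi).1
          omega
  · obtain ⟨c1, c2⟩ := d4 (10 * u + 9) (by omega)
    have c3 := off_mono d4 (10 * u + 9 + 1) (by omega)
    rw [f9] at c1 c2
    simp only [List.length_cons, List.length_map] at c1 c2
    obtain ⟨b, k1, k2⟩ := mach (B := 70 * S) (K1 := 2 * T + 5) (K2 := G + 5)
      (m := (lst n R G u).length) (Ap := fun i => pairS n R ((lst n R G u).getD i 0))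
      (lay_of (β := 0) (by omega) hsz d3 d4 (by omega) v.2 (by omega) (f0 u) (f1 v) (f2 v) f3
        (fun _ => root_le) hlog fit_root)
      (lay_of (β := 4) (by omega) hsz d3 d4 (by omega) u.2 (by omega) (f4 v) (f5 u) (f6 u) f7
        (fun _ => root_le) hlog fit_root)
      (d3 _ (by omega)) ((d3 _ (by omega)).trans (by omega)) (c2 0 (by omega)) (c2 1 (by omega))
      (by omega) (by omega) (by omega) (fun i hi => by
        have := (lst_get hi).1
        rw [show off (10 * u + 9) + 2 + i = off (10 * u + 9) + (i + 1 + 1) by omega,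
          c2 _ (by omega), List.getD_cons_succ, List.getD_cons_succ,
          List.getD_eq_getElem _ _ (by simpa using hi), List.getElem_map,
          ← List.getD_eq_getElem _ 0 hi]
        exact lay_of (β := 0) (by omega) hsz d3 d4 (by omega) v.2 (by omega) (f8 _) (f1 v) (f2 v)
          f3 (fun _ => pair_le) hlog (fit_light (by simp))) (w := w) (by omega) W
    refine ⟨b, run_mono k1 ?_, k2.trans ((both a1 u.2 v.2).trans (hr u v))⟩
    obtain ⟨L, hL⟩ : ∃ L, L = Nat.log 2 n + 1 := ⟨_, rfl⟩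
    have t1 : (2 * T + 5) * ((Nat.log 2 n + 4) * 11 + 23) ≤ 7 * T * (67 * L) :=
      Nat.mul_le_mul (by omega) (by omega)
    have t2 : (G + 5) * ((Nat.log 2 n + 4) * 11 + 23) ≤ 6 * G * (67 * L) :=
      Nat.mul_le_mul (by omega) (by omega)
    have t3 := Nat.mul_le_mul (length_lst (n := n) (R := R) (G := G) (u := u)).1
      (Nat.add_le_add_right t2 21)
    have t4 : G * G * L ≤ T * L := Nat.mul_le_mul_right _ g1
    have t5 : T * 1 ≤ T * L := Nat.mul_le_mul_left _ (by omega)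
    rw [← hL]
    nlinarith

theorem main : ∃ (P : List Instr) (C : ℕ), ∀ (n S T w : ℕ) (E : Finset (Fin n × Fin n)), 1 ≤ T →
    n + E.card ≤ S → ((n + E.card) ^ 4 ≤ S ^ 2 * T ^ 3 ∨
      ((n + E.card) ^ 2 ≤ S * T ^ 2 ∧ (n + E.card) ^ 6 ≤ S ^ 4 * T)) → C * S ≤ 2 ^ w →
    ∃ D : List ℕ, Answers P w 3 E D (C * T * (Nat.log 2 n + 1)) ∧ D.length ≤ C * S := by
  refine ⟨prog, 1500, fun n S T w E hT hS h hw => ?_⟩
  rcases Nat.eq_zero_or_pos n with rfl | hn
  · exact ⟨[], ⟨by simp, fun u => u.elim0⟩, by simp⟩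
  rcases Nat.le_total T S with k | k
  · exact small E hT hn k hS h hw
  · have h0 : (n + E.card) ^ 4 ≤ S ^ 2 * S ^ 3 := by
      rw [← pow_add]
      exact (Nat.pow_le_pow_left hS 4).trans (Nat.pow_le_pow_right (by omega) (by omega))
    obtain ⟨D, ⟨h1, h2⟩, h3⟩ := small E (by omega) hn le_rfl hS (Or.inl h0) hw
    exact ⟨D, ⟨h1, fun u v W => (h2 u v W).imp fun b hb => ⟨run_mono hb.1
      (Nat.mul_le_mul_right _ (Nat.mul_le_mul_left _ k)), hb.2⟩⟩, h3⟩

end Pool.Agent.Lib.MP_a349b4_lc.TK
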