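import Pool.Agent.Lib.MP_a349b4_lc.TK.Core

/-! The set stored for each root, its correctness and the total size. -/

set_option autoImplicit false

namespace Pool.Agent.Lib.MP_a349b4_lc.TK

open Finset
open TH (go mk mem_mk2 card_mk inL rch outS mem_outS length_inL ch_le)

variable (n : ℕ) (R : ℕ → ℕ → Prop) [DecidableRel R] (T H G : ℕ) (V : Finset ℕ)

open Classical in
noncomputable def BL (u : ℕ) : Finset ℕ :=
  (range n).filter fun b => ∃ a < n, R u a ∧ R a b ∧ (a ∉ V ∨ (b ∈ V ∧ G < (outS n R u).card))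

noncomputable def root (u : ℕ) : Finset ℕ :=
  if H < (outS n R u).card then AH n R u (gr n R T H G u n) else mk ∅ ∅ {n} (BL n R G V u)

def pairS (a : ℕ) : Finset ℕ := mk ∅ ∅ {n, n + 1} (outS n R a)

/-- A scan against `A` of the table of `v` stays inside the stored part of the table. -/
def Fit (A : Finset ℕ) (v : ℕ) : Prop :=
  ∃ z ≤ (inL n R v).length + 1, ∃ p : ℕ → ℕ,
    (∀ i ≤ z, p i ≤ plen n R v i ∧ tab n R H G v i (p i) ∈ A) ∧
    ∀ j ≤ p z, tab n R H G v z j ∈ A → tab n R H G v z j % 4 ≠ 0

variable {n R T H G V} {u v : ℕ}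

theorem fit_light {N2 B : Finset ℕ} (hn : n ∈ N2) : Fit n R H G (mk ∅ ∅ N2 B) v := by
  refine ⟨0, Nat.zero_le _, fun _ => (inL n R v).length + 4, fun i hi => ?_, fun j hj k => ?_⟩
  · obtain rfl : i = 0 := by omega
    exact ⟨le_rfl, by rwa [tab_last, mem_mk2]⟩
  · rcases light_term hj k with e | ⟨b, -, -, e⟩ <;> omega

theorem fit_root : Fit n R H G (root n R T H G V u) v := by
  rw [root]
  split_ifs
  · refine ⟨_, le_rfl, fun i => Nat.casesOn i 1 fun i => plen n R v (i + 1), ?_, fun j hj _ => ?_⟩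
    · rintro (_ | i) hi
      · exact ⟨Nat.le_add_left 1 ((inL n R v).length + 3), AH_head⟩
      · refine ⟨le_rfl, ?_⟩
        rcases Nat.lt_or_ge i (inL n R v).length with k | k
        · exact AH_row k
        · have e : plen n R v (i + 1) = 0 := by rw [plen, if_neg (by omega)]
          simp only [e]
          exact AH_end k
    · obtain rfl : j = 0 := by simpa [plen] using hj
      rw [tab_end le_rfl]
      change (4 * n + 2) % 4 ≠ 0
      omega
  · exact fit_light (mem_singleton_self _)

theorem mem_BL {b : ℕ} : b ∈ BL n R G V u ↔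
    b < n ∧ ∃ a < n, R u a ∧ R a b ∧ (a ∉ V ∨ (b ∈ V ∧ G < (outS n R u).card)) := by
  simp only [BL, mem_filter, mem_range]

theorem root_sound (hv : v < n) (hT : H ≤ T)
    (h : go (root n R T H G V u) (tab n R H G v) (2 * T + 5) 0 0 = true) : rch n R u v := by
  rw [root] at h
  split_ifs at h
  · exact (heavy_iff hv).1 h
  · by_contra hc
    rw [light_false (mem_singleton_self _) (fun b hb k => ?_) (Or.inl (by omega))] at h
    · exact absurd h (by simp)
    · obtain ⟨b1, a, a1, a2, a3, -⟩ := mem_BL.1 hb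
      exact hc ⟨a, a1, b, b1, a2, a3, k⟩

theorem root_heavy (hv : v < n) (hT : H < (outS n R u).card) (h : rch n R u v) :
    go (root n R T H G V u) (tab n R H G v) (2 * T + 5) 0 0 = true := by
  rw [root, if_pos hT]
  exact (heavy_iff hv).2 h

theorem root_light (hv : v < n) (hT : ¬ H < (outS n R u).card) (hT' : (inL n R v).length ≤ H)
    {a b : ℕ} (ha : a < n) (hb : b < n) (h1 : R u a) (h2 : R a b) (h3 : R b v)
    (h : a ∉ V ∨ (b ∈ V ∧ G < (outS n R u).card)) :
    go (root n R T H G V u) (tab n R H G v) (2 * T + 5) 0 0 = true := by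
  rw [root, if_neg hT]
  exact light_true (fun z hz => Or.inl (mem_singleton.1 hz)) hv hb h3
    (mem_BL.2 ⟨hb, a, ha, h1, h2, h⟩) hT' (Or.inl (by simp)) _

theorem pair_sound {a : ℕ} (h : go (pairS n R a) (tab n R H G v) (G + 5) 0 0 = true) :
    ∃ b < n, R a b ∧ R b v := by
  by_contra hc
  rw [pairS, light_false (by simp) (fun b hb k => hc ⟨b, (mem_outS.1 hb).1, (mem_outS.1 hb).2, k⟩)
    (Or.inr ⟨by simp, le_rfl⟩)] at h
  exact absurd h (by simp)

theorem pair_true (hv : v < n) {a b : ℕ} (hb : b < n) (h2 : R a b) (h3 : R b v)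
    (hH : (inL n R v).length ≤ H) (hG : (inL n R v).length ≤ G) :
    go (pairS n R a) (tab n R H G v) (G + 5) 0 0 = true :=
  light_true (fun z hz => by simpa using hz) hv hb h3 (mem_outS.2 ⟨hb, h2⟩) hH (Or.inr hG) _

theorem mk_le {S0 S1 S2 S3 : Finset ℕ} {k : ℕ} (h : k ∈ mk S0 S1 S2 S3) (h0 : ∀ z ∈ S0, z ≤ n + 1)
    (h1 : ∀ z ∈ S1, z ≤ n + 1) (h2 : ∀ z ∈ S2, z ≤ n + 1) (h3 : ∀ z ∈ S3, z ≤ n + 1) :
    k < 4 * n + 8 := by
  rcases TH.mem_mk.1 h with ⟨z, h, k⟩ | ⟨z, h, k⟩ | ⟨z, h, k⟩ | ⟨z, h, k⟩
  · have := h0 z h; omega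
  · have := h1 z h; omega
  · have := h2 z h; omega
  · have := h3 z h; omega

theorem root_le {k : ℕ} (h : k ∈ root n R T H G V u) : k < 4 * n + 8 := by
  rw [root] at h
  have hg : ∀ z ∈ insert n (gr n R T H G u n), z ≤ n + 1 := fun z hz => by
    rcases mem_insert.1 hz with k | k
    · omega
    · have := (mem_gr k).1; omega
  split_ifs at h
  · refine mk_le h (fun z hz => ?_) (fun z hz => ?_) hg (by simp)
    · simp only [mem_insert] at hz hg
      rcases hz with k | k | k
      · omega
      · omega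
      · exact hg z (Or.inr k)
    · have := (mem_outS.1 hz).1; omega
  · refine mk_le h (by simp) (by simp) (by simp) fun z hz => ?_
    have := (mem_BL.1 hz).1; omega

theorem pair_le {a k : ℕ} (h : k ∈ pairS n R a) : k < 4 * n + 8 :=
  mk_le h (by simp) (by simp) (by simp) fun z hz => by have := (mem_outS.1 hz).1; omega

theorem card_pair (a : ℕ) : (pairS n R a).card ≤ (outS n R a).card + 2 := by
  have := card_mk (S0 := ∅) (S1 := ∅) (S2 := {n, n + 1}) (S3 := outS n R a)
  have k := card_le_two (a := n) (b := n + 1)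
  rw [card_empty] at this
  rw [pairS]
  omega

theorem card_BL (u : ℕ) : (BL n R G V u).card ≤ (if G < (outS n R u).card then V.card else 0) +
    ∑ a ∈ range n, if R u a then (if a ∈ V then 0 else (outS n R a).card) else 0 := by
  have : BL n R G V u ⊆ (if G < (outS n R u).card then V else ∅) ∪ (range n).biUnion fun a =>
      if R u a then (if a ∈ V then ∅ else outS n R a) else ∅ := by
    intro b hb
    obtain ⟨b1, a, a1, a2, a3, h⟩ := mem_BL.1 hb
    rw [mem_union, mem_biUnion]
    rcases h with h | h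
    · exact Or.inr ⟨a, mem_range.2 a1, by rw [if_pos a2, if_neg h]; exact mem_outS.2 ⟨b1, a3⟩⟩
    · exact Or.inl (by rw [if_pos h.2]; exact h.1)
  refine (card_le_card this).trans ((card_union_le _ _).trans (Nat.add_le_add ?_
    (card_biUnion_le.trans (sum_le_sum fun a _ => ?_))))
  all_goals split_ifs <;> simp

theorem sum_two {N θ : ℕ} (h1 : ∑ b ∈ range n, (outS n R b).card ≤ N)
    (hl : ∀ a < n, a ∉ V → (inL n R a).length ≤ θ) :
    ∑ u ∈ range n, ∑ a ∈ range n,
      (if R u a then (if a ∈ V then 0 else (outS n R a).card) else 0) ≤ θ * N := by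
  rw [sum_comm]
  refine le_trans ?_ (Nat.mul_le_mul_left _ h1)
  rw [mul_sum]
  refine sum_le_sum fun a ha => ?_
  rw [← sum_filter, sum_const, smul_eq_mul]
  split_ifs with h
  · omega
  · have := hl a (mem_range.1 ha) h
    rw [length_inL] at this
    exact Nat.mul_le_mul_right _ this

theorem root_size {N S θ : ℕ} (h1 : ∑ b ∈ range n, (outS n R b).card ≤ N)
    (h2 : ∑ b ∈ range n, (inL n R b).length ≤ N) (hn : n ≤ N) (hT : 1 ≤ T) (hS : N ≤ S)
    (hA : N * N ≤ S * (T * (H + 1))) (hl : ∀ a < n, a ∉ V → (inL n R a).length ≤ θ)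
    (hθ : θ * N ≤ S) (hc : H ≤ G ∨ N * V.card ≤ 2 * S * (G + 1)) :
    ∑ u ∈ range n, (root n R T H G V u).card ≤ 11 * S := by
  have g1 : ∀ u, (gr n R T H G u n).card * (2 * T) ≤ 4 * N := fun u => by
    refine (Nat.mul_le_mul_left _ (Nat.le_succ _)).trans ((gr_card u n le_rfl).trans
      ((sum_le_sum fun b _ => ch_le _ b).trans ?_))
    rw [sum_add_distrib, ← mul_sum]
    omega
  have g2 : ∀ u, (root n R T H G V u).card ≤
      (if H < (outS n R u).card then 2 * (gr n R T H G u n).card else 0) + (outS n R u).card + 3 +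
      (if G < (outS n R u).card ∧ (outS n R u).card ≤ H then V.card else 0) +
      ∑ a ∈ range n, if R u a then (if a ∈ V then 0 else (outS n R a).card) else 0 := fun u => by
    rw [root]
    by_cases h : H < (outS n R u).card
    · have := card_mk (S0 := insert n (insert (n + 1) (gr n R T H G u n))) (S1 := outS n R u)
        (S2 := insert n (gr n R T H G u n)) (S3 := ∅)
      have k := card_insert_le n (gr n R T H G u n)
      have k1 := card_insert_le (n + 1) (gr n R T H G u n)
      have k2 := card_insert_le n (insert (n + 1) (gr n R T H G u n))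
      rw [card_empty] at this
      rw [if_pos h, if_pos h, AH]
      omega
    · have := card_mk (S0 := ∅) (S1 := ∅) (S2 := {n}) (S3 := BL n R G V u)
      have k := card_BL (n := n) (R := R) (G := G) (V := V) u
      rw [card_empty, card_singleton] at this
      simp only [if_neg h, Nat.not_lt.1 h, and_true]
      omega
  have g3 : ∑ u ∈ range n, (if H < (outS n R u).card then 2 * (gr n R T H G u n).card else 0) ≤
      4 * S := by
    refine Nat.le_of_mul_le_mul_right (c := T * (H + 1)) ?_ (Nat.mul_pos hT (by omega))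
    rw [sum_mul]
    refine (sum_le_sum (g := fun u => (outS n R u).card * (4 * N)) fun u _ => ?_).trans ?_
    · split_ifs with h
      · calc _ = (H + 1) * ((gr n R T H G u n).card * (2 * T)) := by ring
          _ ≤ _ := Nat.mul_le_mul h (g1 u)
      · omega
    · rw [← sum_mul]
      calc _ ≤ N * (4 * N) := Nat.mul_le_mul_right _ h1
        _ = 4 * (N * N) := by ring
        _ ≤ 4 * (S * (T * (H + 1))) := Nat.mul_le_mul_left _ hA
        _ = _ := by ring
  have g4 : ∑ u ∈ range n,
      (if G < (outS n R u).card ∧ (outS n R u).card ≤ H then V.card else 0) ≤ 2 * S := by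
    rcases hc with hc | hc
    · rw [sum_eq_zero fun u _ => if_neg (by omega)]
      omega
    · refine Nat.le_of_mul_le_mul_right (c := G + 1) (le_trans ?_ hc) (by omega)
      rw [sum_mul]
      refine (sum_le_sum (g := fun u => (outS n R u).card * V.card) fun u _ => ?_).trans ?_
      · split_ifs with h
        · rw [Nat.mul_comm]
          exact Nat.mul_le_mul_right _ h.1
        · omega
      · rw [← sum_mul]
        exact Nat.mul_le_mul_right _ h1
  have g5 := sum_two h1 hl
  refine (sum_le_sum fun u _ => g2 u).trans ?_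
  simp only [sum_add_distrib, sum_const, card_range, smul_eq_mul]
  omega

end Pool.Agent.Lib.MP_a349b4_lc.TK
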